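import Pool.Agent.N154.TB.VGeo
import Pool.Agent.J4H41.VI.Low
import Pool.Agent.J4H41.VI.Kob

/-!
Entire curves of bounded derivative in projective varieties over number fields with finitely many
rational points, and closed subvarieties of varieties over abelian varieties.
-/

set_option autoImplicit false
set_option linter.overlappingInstances false

open Filter Topology Metric Set LinearAlgebra.Projectivization

namespace Pool.Agent.J4H28.HY

open FF IntermediateField Pool.Agent.Y190.OP Pool.Agent.W602.GT Pool.Agent.N154.TB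
open Pool.Agent.N155 (nz nz_Phi TX Cv exists_closure crv_not_general)
open Pool.Agent.N154.GG (HolMap holP_of proj_ext projDist kobayashi doubly_periodic_not_dense
  fderiv_cont)
open Pool.Agent.W603.LV (canDeg)
open Pool.Agent.Q103.AR (Points infinite_of_elliptic)
open Pool.Agent.J4H41.VI (exists_ell exists_nonconst)

variable {n : ℕ} {ι : Type}

/-- The Zariski closure of the image of the map `f` has the function field `K`, the dimension `w` and
the generic point `y`. -/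
structure ZarClosure (f : ℂ → ℙ ℂ (Fin (n + 1) → ℂ)) (K : Type) [Field K] [Algebra ℂ K] (w : ℕ)
    (y : Fin (n + 1) → K) : Prop where
  ne : y ≠ 0
  gen : coords ℂ y = ⊤
  dim : Algebra.trdeg ℂ K = w
  van : ∀ G : MvPolynomial (Fin (n + 1)) ℂ, IsForm G → (val y G = 0 ↔ ∀ z, val (f z).rep G = 0)

theorem nz_rep {G : MvPolynomial (Fin (n + 1)) ℂ} (hG : IsForm G) (p : ℙ ℂ (Fin (n + 1) → ℂ)) :
    ¬ nz G (Phi p.rep) ↔ val p.rep G = 0 := by
  obtain ⟨d, hd⟩ := hG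
  rw [nz_Phi hd p.rep_nonzero, not_not, Pool.Agent.N155.val_eval]

theorem exists_clo {f : ℂ → ℙ ℂ (Fin (n + 1) → ℂ)} (hf : HolMap f) (hnc : ¬ IsConst f) :
    ∃ (K : Type) (_ : Field K) (_ : Algebra ℂ K) (w : ℕ) (y : Fin (n + 1) → K),
      ZarClosure f K w y ∧ w ≠ 0 := by
  obtain ⟨K, i1, i2, w, y, hy, hgen, hw, hrel, hw0⟩ := exists_closure (holP_of hf)
  refine ⟨K, i1, i2, w, y, ⟨hy, hgen, hw, fun G hG => ?_⟩, fun h0 => hnc ?_⟩
  · rw [hrel G hG]
    exact forall_congr' fun z => nz_rep hG (f z)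
  · have h1 := hw0 h0
    intro z z'
    exact proj_ext ((h1 z).trans (h1 z').symm)

theorem ZarClosure.cv {f : ℂ → ℙ ℂ (Fin (n + 1) → ℂ)} {K : Type} [Field K] [Algebra ℂ K] {w : ℕ}
    {y : Fin (n + 1) → K} (h : ZarClosure f K w y) (hf : HolMap f) :
    Cv y fun z => Phi (f z).rep := by
  refine ⟨holP_of hf, fun z => ⟨(f z).rep, ⟨(f z).rep_nonzero, fun G hG h0 => (h.van G hG).1 h0 z⟩,
    rfl⟩, fun G hG hv => ?_⟩
  by_contra hcon
  push Not at hcon
  exact hv ((h.van G hG).2 fun z => (nz_rep hG (f z)).1 (hcon z))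

theorem ZarClosure.sub {f : ℂ → ℙ ℂ (Fin (n + 1) → ℂ)} {K : Type} [Field K] [Algebra ℂ K] {w : ℕ}
    {y : Fin (n + 1) → K} (h : ZarClosure f K w y) {F : ι → MvPolynomial (Fin (n + 1)) ℂ}
    (hF : ∀ e, IsForm (F e)) (hf : CurveIn (Cone F) f) : SubVar F K w y :=
  ⟨h.ne, fun e => (h.van _ (hF e)).2 fun z => (hf.2 z).2 e, h.gen, h.dim⟩

/-- the derivative of elliptic maps is bounded -/
theorem bounded_of_elliptic {f : ℂ → ℙ ℂ (Fin (n + 1) → ℂ)} (hf : HolMap f) (he : Elliptic f) :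
    ∃ B : ℝ, ∀ z, ‖fderiv ℝ (fun z => Phi (f z).rep) z‖ ≤ B := by
  obtain ⟨L, hL⟩ := he
  obtain ⟨φ, hφ⟩ : ∃ φ : ℂ → Mat (n + 1), φ = fun z => Phi (f z).rep := ⟨_, rfl⟩
  rw [← hφ]
  have hc : Continuous (fderiv ℝ φ) := by
    rw [hφ]
    exact fderiv_cont (holP_of hf)
  have hper : ∀ l ∈ L.lattice, ∀ z, fderiv ℝ φ (z + l) = fderiv ℝ φ z := by
    intro l hl z
    have h1 : (fun w => φ (w + l)) = φ := by
      funext w
      rw [hφ]
      change Phi (f (w + l)).rep = Phi (f w).rep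
      rw [hL l hl]
    have h2 := fderiv_comp_add_right (𝕜 := ℝ) (f := φ) (x := z) l
    rw [h1] at h2
    exact h2.symm
  obtain ⟨g, hg⟩ : ∃ g : ℝ × ℝ → ℂ, g = fun t => t.1 * L.ω₁ + t.2 * L.ω₂ := ⟨_, rfl⟩
  have hgc : Continuous g := by
    rw [hg]
    fun_prop
  have hK : IsCompact (g '' (Icc 0 1 ×ˢ Icc 0 1)) := (isCompact_Icc.prod isCompact_Icc).image hgc
  obtain ⟨B, hB⟩ := hK.exists_bound_of_continuousOn hc.continuousOn
  refine ⟨B, fun z => ?_⟩
  obtain ⟨a, b, hab⟩ : ∃ a b : ℝ, z = a * L.ω₁ + b * L.ω₂ := by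
    refine ⟨L.basis.repr z 0, L.basis.repr z 1, ?_⟩
    have h1 := L.basis.sum_repr z
    rw [Fin.sum_univ_two, L.basis_zero, L.basis_one, Complex.real_smul, Complex.real_smul] at h1
    exact h1.symm
  have hl : ((-⌊a⌋ : ℤ) : ℂ) * L.ω₁ + ((-⌊b⌋ : ℤ) : ℂ) * L.ω₂ ∈ L.lattice :=
    PeriodPair.mem_lattice.2 ⟨_, _, rfl⟩
  rw [← hper _ hl z]
  apply hB
  refine ⟨(Int.fract a, Int.fract b), ⟨⟨Int.fract_nonneg _, (Int.fract_lt_one _).le⟩,
    ⟨Int.fract_nonneg _, (Int.fract_lt_one _).le⟩⟩, ?_⟩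
  rw [hg, hab]
  simp only [Int.fract]
  push_cast
  ring

theorem bounded_of_lip {f : ℂ → ℙ ℂ (Fin (n + 1) → ℂ)} {B : ℝ}
    (hB : ∀ z w, projDist (f z) (f w) ≤ B * ‖z - w‖) (z : ℂ) :
    ‖fderiv ℝ (fun z => Phi (f z).rep) z‖ ≤ B := by
  have hB0 : 0 ≤ B := by
    have h1 := hB 1 0
    rw [sub_zero, norm_one, mul_one] at h1
    exact (norm_nonneg _).trans h1
  exact norm_fderiv_le_of_lip' ℝ hB0 (Filter.Eventually.of_forall fun w => hB w z)

/-- **Curves of bounded derivative**: their closures of dimension one are not of general type. -/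
theorem ZarClosure.not_general {f : ℂ → ℙ ℂ (Fin (n + 1) → ℂ)} {K : Type} [Field K] [Algebra ℂ K]
    {y : Fin (n + 1) → K} (h : ZarClosure f K 1 y) (hf : HolMap f) {B : ℝ}
    (hB : ∀ z, ‖fderiv ℝ (fun z => Phi (f z).rep) z‖ ≤ B) : ¬ GeneralType ℂ K 1 :=
  crv_not_general h.gen (h.cv hf) hB

/-- **Rational points on curves of genus at most one**, off a given hypersurface. -/
theorem infinite_of_curve {k : Type} [Field k] [NumberField k] (σ : k →+* ℂ)
    {F : ι → MvPolynomial (Fin (n + 1)) k} (hF : ∀ e, IsForm (F e))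
    {G : MvPolynomial (Fin (n + 1)) k} (hG : IsForm G)
    (K : Type) [Field K] [Algebra ℂ K] (y : Fin (n + 1) → K)
    (hy : SubVar (fun e => MvPolynomial.map σ (F e)) K 1 y) (hng : ¬ GeneralType ℂ K 1)
    (hGy : val y (MvPolynomial.map σ G) ≠ 0) :
    ∃ (L : Type) (_ : Field L) (_ : NumberField L) (_ : Algebra k L),
      {P | P ∈ Points F L ∧ MvPolynomial.aeval P.rep G ≠ 0}.Infinite := by
  have hess : Algebra.EssFiniteType ℂ K := Pool.Agent.N155.ess_of_coords hy.gen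
  have hff : IsFF ℂ K := ⟨hess, by rw [hy.dim, Nat.cast_one]⟩
  have hcan : canDeg ℂ K ≤ 0 := by
    by_contra hpos
    push Not at hpos
    apply hng
    have h1 := Pool.Agent.Q96.LS.lgt_one (L := K) ∅ (by simpa using hpos)
    simp only [Finset.notMem_empty] at h1
    exact general_of_log h1
  obtain ⟨E, _, _, φ, a, b, X, Y, hab, hXY, htop⟩ := exists_ell hcan
  obtain ⟨i, j, hj, hij⟩ := exists_nonconst hy.gen (by rw [hy.dim]; simp)
  let _ : Algebra k ℂ := σ.toAlgebra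
  have hval : ∀ G : MvPolynomial (Fin (n + 1)) ℂ,
      Pool.Agent.W602.GT.val (fun l => φ (y l)) G = φ (Pool.Agent.W602.GT.val y G) := by
    intro G
    unfold Pool.Agent.W602.GT.val
    rw [← MvPolynomial.comp_aeval_apply]
  exact infinite_of_elliptic (k := k) (Om := ℂ) F hF G hG hab hXY htop (fun l => φ (y l)) i j
    (fun h0 => hj ((map_eq_zero φ).1 h0)) (by
      intro h0
      apply hij
      have h1 : IsAlgebraic ℂ (φ (y i / y j)) := by rw [map_div₀]; exact h0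
      exact (isAlgebraic_algHom_iff φ φ.injective).1 h1) (fun e => by
      rw [hval]
      exact (congrArg φ (hy.mem e)).trans (map_zero φ)) (by
      rw [hval]
      intro h0
      exact hGy ((map_eq_zero φ).1 h0))

/-- the closures of the images of elliptic maps are curves -/
theorem dim_of_elliptic {f : ℂ → ℙ ℂ (Fin (n + 1) → ℂ)} (hf : HolMap f) (he : Elliptic f)
    {K : Type} [Field K] [Algebra ℂ K] {w : ℕ} {y : Fin (n + 1) → K} (h : ZarClosure f K w y) :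
    w ≤ 1 := by
  by_contra hw
  obtain ⟨L, hL⟩ := he
  obtain ⟨G, hG, hGy, hGz⟩ := doubly_periodic_not_dense h.gen h.dim (by omega) (holP_of hf)
    (h.cv hf).mem L.indep (fun z => by rw [hL _ L.ω₁_mem_lattice]) fun z => by
      rw [hL _ L.ω₂_mem_lattice]
  exact hGy ((h.van G hG).2 fun z => (nz_rep hG (f z)).1 (hGz z))

section main

variable {k : Type} [Field k] [NumberField k] (σ : k →+* ℂ) {m d : ℕ} {ι' μ κ : Type}
  {Φ : μ → MvPolynomial (Fin (n + 1)) k}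

/-- **Elliptic maps** -/
theorem elliptic_in (hΦ : ∀ e, IsForm (Φ e)) {κ : Type} {Θ : κ → MvPolynomial (Fin (n + 1)) k}
    (hΘ : ∀ j, IsForm (Θ j))
    (hfin : ∀ (L : Type) [Field L] [NumberField L] [Algebra k L],
      (Points Φ L \ Points Θ L).Finite)
    {f : ℂ → ℙ ℂ (Fin (n + 1) → ℂ)}
    (hf : CurveIn (Cone fun e => MvPolynomial.map σ (Φ e)) f) (hnc : ¬ IsConst f) {B : ℝ}
    (hB : ∀ z, ‖fderiv ℝ (fun z => Phi (f z).rep) z‖ ≤ B)
    (hd : ∀ (K : Type) [Field K] [Algebra ℂ K] (w : ℕ) (y : Fin (n + 1) → K),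
      ZarClosure f K w y → w ≤ 1) (z : ℂ) :
    (f z).rep ∈ Cone fun j => MvPolynomial.map σ (Θ j) := by
  have hΦ' : ∀ e, IsForm (MvPolynomial.map σ (Φ e)) := fun e => by
    obtain ⟨d, hd⟩ := hΦ e
    exact ⟨d, hd.map σ⟩
  have hΘ' : ∀ e, IsForm (MvPolynomial.map σ (Θ e)) := fun e => by
    obtain ⟨d, hd⟩ := hΘ e
    exact ⟨d, hd.map σ⟩
  obtain ⟨K, i1, i2, w, y, hy, hw⟩ := exists_clo hf.1 hnc
  have hw1 := hd K w y hy
  obtain rfl : w = 1 := by omega
  refine ⟨(hf.2 z).1, fun j => ?_⟩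
  by_contra hcon
  obtain ⟨L, j1, j2, j3, hinf⟩ := infinite_of_curve σ hΦ (hΘ j) K y (hy.sub hΦ' hf)
    (hy.not_general hf.1 hB) fun h0 => hcon ((hy.van _ (hΘ' j)).1 h0 z)
  exact hinf ((hfin L).subset fun P hP => ⟨hP.1, fun h0 => hP.2 (h0 j)⟩)

/-- the points of the projective set are a closed set -/
theorem cone_closed {F : ι → MvPolynomial (Fin (n + 1)) ℂ} (hF : ∀ i, IsForm (F i))
    (p : ℙ ℂ (Fin (n + 1) → ℂ))
    (hp : ∀ ε > 0, ∃ q : ℙ ℂ (Fin (n + 1) → ℂ), q.rep ∈ Cone F ∧ projDist p q < ε) :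
    p.rep ∈ Cone F := by
  have hX := cone_conic hF
  have hc : IsClosed (TS (Cone F)) := (isCompact_TF hF).isClosed
  have h1 : Phi p.rep ∈ TS (Cone F) := by
    rw [← hc.closure_eq, Metric.mem_closure_iff]
    intro ε hε
    obtain ⟨q, hq, hd⟩ := hp ε hε
    exact ⟨Phi q.rep, mem_TS hq, by rw [dist_eq_norm]; exact hd⟩
  obtain ⟨x, hx, he⟩ := h1
  obtain ⟨c, hc0, hc'⟩ := Phi_inj p.rep_nonzero (hX x hx).1 he
  have h2 : p.rep = c⁻¹ • x := by rw [hc', smul_smul, inv_mul_cancel₀ hc0, one_smul]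
  rw [h2]
  exact (hX x hx).2 _ (inv_ne_zero hc0)

/-- **Closed subvarieties, over number fields, of varieties over abelian varieties.** -/
theorem hyp_over {F : ι → MvPolynomial (Fin (n + 1)) ℂ} (hF : ∀ i, IsForm (F i))
    {G : ι' → MvPolynomial (Fin (n + 1)) ℂ} (hG : ∀ j, IsForm (G j))
    {Λ : Submodule ℤ (Fin m → ℂ)} [DiscreteTopology Λ] [IsZLattice ℝ Λ]
    {H : (Fin m → ℂ) → (Fin m → ℂ) → ℂ} (hH : Pool.Agent.N154.TT.RiemannForm Λ H)
    {α : (Fin (n + 1) → ℂ) → (Fin m → ℂ) ⧸ Λ} (hα : Pool.Agent.N154.TT.HolToTorus (Cone F) Λ α)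
    {r : κ → ℕ} {η : κ → (Fin (n + 1) → ℂ) → (Fin (n + 1) → ℂ) → (Fin (n + 1) → ℂ) → ℂ}
    (hη : TwoForms (Cone F) (Zeros G) d α r η)
    (hΦ : ∀ e, IsForm (Φ e)) (hsub : Cone (fun e => MvPolynomial.map σ (Φ e)) ⊆ Cone F)
    (hdim : ∀ h, CurveIn (Cone fun e => MvPolynomial.map σ (Φ e)) h →
      ((∀ z w, α (h z).rep = α (h w).rep) ∨ ∀ z, (h z).rep ∈ Zeros G) →
      ∀ (K : Type) [Field K] [Algebra ℂ K] (w : ℕ) (y : Fin (n + 1) → K),
        ZarClosure h K w y → w ≤ 1)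
    (hfin : ∀ (L : Type) [Field L] [NumberField L] [Algebra k L], (Points Φ L).Finite) :
    BrodyHyp (Cone fun e => MvPolynomial.map σ (Φ e)) := by
  have hΦ' : ∀ e, IsForm (MvPolynomial.map σ (Φ e)) := fun e => by
    obtain ⟨d, hd⟩ := hΦ e
    exact ⟨d, hd.map σ⟩
  -- no curves of bounded derivative in algebraic curves
  have key : ∀ h, CurveIn (Cone fun e => MvPolynomial.map σ (Φ e)) h → ¬ IsConst h →
      (∀ (K : Type) [Field K] [Algebra ℂ K] (w : ℕ) (y : Fin (n + 1) → K),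
        ZarClosure h K w y → w ≤ 1) →
      ∀ B : ℝ, ¬ ∀ z, ‖fderiv ℝ (fun z => Phi (h z).rep) z‖ ≤ B := by
    intro h hh hnc hw B hB
    have h1 := elliptic_in σ hΦ (κ := Unit) (Θ := fun _ => 1)
      (fun _ => ⟨0, MvPolynomial.isHomogeneous_one _ _⟩)
      (fun L _ _ _ => (hfin L).subset Set.sdiff_subset) hh hnc hB hw 0
    have h2 := h1.2 ()
    rw [map_one] at h2
    unfold Pool.Agent.W602.GT.val at h2
    rw [map_one] at h2
    exact one_ne_zero h2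
  intro f hf
  by_contra hnc
  rcases closed_geo hF hG hη hH hα (V := {p | p.rep ∈ Cone fun e => MvPolynomial.map σ (Φ e)})
    (fun p hp => hsub hp) (cone_closed hΦ') with ⟨h, h1, h2, h3, h4, h5⟩ | ⟨T, hT, h1, h2, -⟩
  · have hh : CurveIn (Cone fun e => MvPolynomial.map σ (Φ e)) h := ⟨h1.1, h3⟩
    exact key h hh h2 (fun K _ _ w y hy => hdim h hh h4 K w y hy) 2 (bounded_of_lip h5)
  · rcases h2 f ⟨hf.1, fun z => hsub (hf.2 z)⟩ hf.2 with h3 | ⟨g, hg, s, hs, hfs⟩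
    · exact hnc h3
    · obtain ⟨g1, g2, g3, g4⟩ := h1 g hg
      have hg' : CurveIn (Cone fun e => MvPolynomial.map σ (Φ e)) g := ⟨g1.1, g2⟩
      have hgn : ¬ IsConst g := by
        intro hc
        apply hnc
        intro z w
        rw [hfs, hfs]
        exact hc _ _
      obtain ⟨B, hB⟩ := bounded_of_elliptic g1.1 g3
      exact key g hg' hgn (fun K _ _ w y hy => dim_of_elliptic g1.1 g3 hy) B hB

/-- **Exceptional sets.** -/
theorem in_over {F : ι → MvPolynomial (Fin (n + 1)) ℂ} (hF : ∀ i, IsForm (F i))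
    {G : ι' → MvPolynomial (Fin (n + 1)) ℂ} (hG : ∀ j, IsForm (G j))
    {Λ : Submodule ℤ (Fin m → ℂ)} [DiscreteTopology Λ] [IsZLattice ℝ Λ]
    {H : (Fin m → ℂ) → (Fin m → ℂ) → ℂ} (hH : Pool.Agent.N154.TT.RiemannForm Λ H)
    {α : (Fin (n + 1) → ℂ) → (Fin m → ℂ) ⧸ Λ} (hα : Pool.Agent.N154.TT.HolToTorus (Cone F) Λ α)
    {r : κ → ℕ} {η : κ → (Fin (n + 1) → ℂ) → (Fin (n + 1) → ℂ) → (Fin (n + 1) → ℂ) → ℂ}
    (hη : TwoForms (Cone F) (Zeros G) d α r η)
    (hΦ : ∀ e, IsForm (Φ e)) (hsub : Cone (fun e => MvPolynomial.map σ (Φ e)) ⊆ Cone F)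
    (hconst : ∀ h, CurveIn (Cone fun e => MvPolynomial.map σ (Φ e)) h →
      ((∀ z w, α (h z).rep = α (h w).rep) ∨ ∀ z, (h z).rep ∈ Zeros G) → IsConst h)
    {ν : Type} {Θ : ν → MvPolynomial (Fin (n + 1)) k} (hΘ : ∀ j, IsForm (Θ j))
    (hfin : ∀ (L : Type) [Field L] [NumberField L] [Algebra k L],
      (Points Φ L \ Points Θ L).Finite)
    {f : ℂ → ℙ ℂ (Fin (n + 1) → ℂ)}
    (hf : CurveIn (Cone fun e => MvPolynomial.map σ (Φ e)) f) (hnc : ¬ IsConst f) (z : ℂ) :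
    (f z).rep ∈ Cone fun j => MvPolynomial.map σ (Θ j) := by
  have hΦ' : ∀ e, IsForm (MvPolynomial.map σ (Φ e)) := fun e => by
    obtain ⟨d, hd⟩ := hΦ e
    exact ⟨d, hd.map σ⟩
  rcases closed_geo hF hG hη hH hα (V := {p | p.rep ∈ Cone fun e => MvPolynomial.map σ (Φ e)})
    (fun p hp => hsub hp) (cone_closed hΦ') with ⟨h, h1, h2, h3, h4, h5⟩ | ⟨T, hT, h1, h2, -⟩
  · exact absurd (hconst h ⟨h1.1, h3⟩ h4) h2
  · rcases h2 f ⟨hf.1, fun z => hsub (hf.2 z)⟩ hf.2 with h3 | ⟨g, hg, s, hs, hfs⟩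
    · exact absurd h3 hnc
    · obtain ⟨g1, g2, g3, g4⟩ := h1 g hg
      have hg' : CurveIn (Cone fun e => MvPolynomial.map σ (Φ e)) g := ⟨g1.1, g2⟩
      have hgn : ¬ IsConst g := by
        intro hc
        apply hnc
        intro z w
        rw [hfs, hfs]
        exact hc _ _
      obtain ⟨B, hB⟩ := bounded_of_elliptic g1.1 g3
      rw [hfs]
      exact elliptic_in σ hΦ hΘ hfin hg' hgn hB
        (fun K _ _ w y hy => dim_of_elliptic g1.1 g3 hy) _

end main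

end Pool.Agent.J4H28.HY
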