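import Pool.Agent.Q103.AR.Main
import Pool.Agent.W602.GT.SpGmDefs

/-!
Rational points of projective varieties which contain a nonconstant image of the multiplicative
group.
-/

set_option autoImplicit false
set_option linter.overlappingInstances false

namespace Pool.Agent.J4H28.HY

open IntermediateField Pool.Agent.W602.GT
open Pool.Agent.Q103.AR (Points infinite_of_elliptic)

theorem adjoin_self_top {Ω : Type} [Field Ω] [Algebra ℂ Ω] {x y : Ω} (E : IntermediateField ℂ Ω)
    (hE : E = adjoin ℂ {x, y}) (hx : x ∈ E) (hy : y ∈ E) :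
    adjoin ℂ ({⟨x, hx⟩, ⟨y, hy⟩} : Set E) = ⊤ := by
  have h1 : (adjoin ℂ ({⟨x, hx⟩, ⟨y, hy⟩} : Set E)).map E.val =
      (⊤ : IntermediateField ℂ E).map E.val := by
    rw [adjoin_map]
    have h2 : (E.val '' {⟨x, hx⟩, ⟨y, hy⟩} : Set Ω) = {x, y} := by
      rw [Set.image_pair]
      rfl
    rw [h2, ← hE]
    apply le_antisymm
    · intro z hz
      exact ⟨⟨z, hz⟩, trivial, rfl⟩
    · rintro z ⟨w, -, rfl⟩
      exact w.2
  exact map_injective E.val h1

theorem exists_E : ∃ (E : Type) (_ : Field E) (_ : Algebra ℂ E) (x y : E), Transcendental ℂ x ∧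
    y ^ 2 = x ^ 3 + algebraMap ℂ E 0 * x + algebraMap ℂ E 1 ∧
    adjoin ℂ {x, y} = (⊤ : IntermediateField ℂ E) := by
  let Ω := AlgebraicClosure (RatFunc ℂ)
  let τ : Ω := algebraMap (RatFunc ℂ) Ω RatFunc.X
  have hτt : Transcendental ℂ τ := by
    have h1 : Transcendental ℂ (RatFunc.X : RatFunc ℂ) := RatFunc.transcendental_X
    exact (transcendental_algebraMap_iff (algebraMap (RatFunc ℂ) Ω).injective).2 h1
  obtain ⟨y, hy⟩ := IsAlgClosed.exists_pow_nat_eq (τ ^ 3 + algebraMap ℂ Ω 0 * τ + algebraMap ℂ Ω 1)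
    two_pos
  have hτ : τ ∈ (adjoin ℂ {τ, y} : IntermediateField ℂ Ω) := subset_adjoin ℂ _ (by simp)
  have hyE : y ∈ (adjoin ℂ {τ, y} : IntermediateField ℂ Ω) := subset_adjoin ℂ _ (by simp)
  refine ⟨(adjoin ℂ {τ, y} : IntermediateField ℂ Ω), inferInstance, inferInstance, ⟨τ, hτ⟩,
    ⟨y, hyE⟩, ?_, ?_, adjoin_self_top _ rfl hτ hyE⟩
  · intro h
    apply hτt
    exact h.algHom (adjoin ℂ {τ, y} : IntermediateField ℂ Ω).val
  · apply (adjoin ℂ {τ, y} : IntermediateField ℂ Ω).val.injective
    simp only [map_pow, map_add, map_mul]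
    exact hy

theorem alg_const {E : Type} [Field E] [Algebra ℂ E] {z : E} (h : IsAlgebraic ℂ z) :
    ∃ c : ℂ, z = algebraMap ℂ E c := by
  have h1 : (minpoly ℂ z).degree = 1 :=
    IsAlgClosed.degree_eq_one_of_irreducible ℂ (minpoly.irreducible h.isIntegral)
  obtain ⟨c, hc⟩ := minpoly.mem_range_of_degree_eq_one ℂ z h1
  exact ⟨c, hc.symm⟩

/-- **Rational points from images of the multiplicative group.** -/
theorem gm_infinite {k : Type} [Field k] [NumberField k] (σ : k →+* ℂ) {M : ℕ} {ι : Type}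
    {F : ι → MvPolynomial (Fin (M + 1)) k} (hF : ∀ e, IsForm (F e)) {P : Fin (M + 1) → Polynomial ℂ}
    (hP : GmCurve (fun e => MvPolynomial.map σ (F e)) P) {G : MvPolynomial (Fin (M + 1)) k}
    (hG : IsForm G) {t : ℂ} (hGt : val (fun i => (P i).eval t) (MvPolynomial.map σ G) ≠ 0) :
    ∃ (L : Type) (_ : Field L) (_ : NumberField L) (_ : Algebra k L),
      {p | p ∈ Points F L ∧ MvPolynomial.aeval p.rep G ≠ 0}.Infinite := by
  classical
  let _ : Algebra k ℂ := σ.toAlgebra
  obtain ⟨E, i1, i2, x, y, hx, hxy, htop⟩ := exists_E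
  have hinj : Function.Injective (Polynomial.aeval x : Polynomial ℂ →ₐ[ℂ] E) :=
    transcendental_iff_injective.1 hx
  obtain ⟨v, hv⟩ : ∃ v : Fin (M + 1) → E, ∀ i, v i = Polynomial.aeval x (P i) := ⟨_, fun _ => rfl⟩
  have hval : ∀ H : MvPolynomial (Fin (M + 1)) ℂ,
      val v H = Polynomial.aeval x (MvPolynomial.aeval P H) := by
    intro H
    unfold Pool.Agent.W602.GT.val
    have h1 : v = fun i => Polynomial.aeval x (P i) := funext hv
    rw [h1, ← MvPolynomial.comp_aeval_apply]
  have heval : ∀ (H : MvPolynomial (Fin (M + 1)) ℂ) (s : ℂ),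
      (MvPolynomial.aeval P H).eval s = val (fun i => (P i).eval s) H := by
    intro H s
    unfold Pool.Agent.W602.GT.val
    rw [← Polynomial.coe_aeval_eq_eval, ← MvPolynomial.comp_aeval_apply]
  have hFv : ∀ e, val v (MvPolynomial.map (algebraMap k ℂ) (F e)) = 0 := by
    intro e
    have h1 : MvPolynomial.aeval P (MvPolynomial.map (algebraMap k ℂ) (F e)) = 0 := by
      apply Polynomial.eq_zero_of_infinite_isRoot
      refine Set.Infinite.mono ?_ (Set.finite_singleton (0 : ℂ)).infinite_compl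
      intro s hs
      rw [Set.mem_compl_iff, Set.mem_singleton_iff] at hs
      change Polynomial.IsRoot _ s
      rw [Polynomial.IsRoot, heval]
      exact hP.mem s hs e
    rw [hval, h1, map_zero]
  have hGv : val v (MvPolynomial.map (algebraMap k ℂ) G) ≠ 0 := by
    rw [hval]
    intro h
    have h1 : MvPolynomial.aeval P (MvPolynomial.map (algebraMap k ℂ) G) = 0 :=
      hinj (by rw [h, map_zero])
    apply hGt
    rw [← heval]
    change Polynomial.eval t (MvPolynomial.aeval P (MvPolynomial.map (algebraMap k ℂ) G)) = 0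
    rw [h1, Polynomial.eval_zero]
  obtain ⟨s, s', hs, hs', hind⟩ := hP.nonconst
  obtain ⟨j, hj⟩ := Function.ne_iff.1 (hP.ne s hs)
  have hPj : P j ≠ 0 := by
    intro h
    apply hj
    change (P j).eval s = 0
    rw [h, Polynomial.eval_zero]
  have hvj : v j ≠ 0 := by
    rw [hv]
    intro h
    exact hPj (hinj (by rw [h, map_zero]))
  obtain ⟨i, htr⟩ : ∃ i, Transcendental ℂ (v i / v j) := by
    by_contra hcon
    push Not at hcon
    have h1 : ∀ i, ∃ c : ℂ, P i = Polynomial.C c * P j := by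
      intro i
      have h2 := hcon i
      unfold Transcendental at h2
      rw [not_not] at h2
      obtain ⟨c, hc⟩ := alg_const h2
      refine ⟨c, hinj ?_⟩
      rw [map_mul, Polynomial.aeval_C, ← hv, ← hv, ← hc]
      field_simp
    choose c hc using h1
    rw [LinearIndependent.pair_iff] at hind
    have h3 := hind ((P j).eval s') (-(P j).eval s) (by
      funext i
      simp only [Pi.add_apply, Pi.smul_apply, smul_eq_mul, Pi.zero_apply]
      rw [hc i]
      simp only [Polynomial.eval_mul, Polynomial.eval_C]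
      ring)
    apply hj
    have h4 := h3.2
    rw [neg_eq_zero] at h4
    exact h4
  exact infinite_of_elliptic (k := k) (Om := ℂ) F hF G hG (a := 0) (b := 1) (by norm_num) hxy htop v
    i j hvj htr hFv hGv

end Pool.Agent.J4H28.HY
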