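import Pool.Agent.J4H28.HY.Lift
import Pool.Agent.J4H28.HY.Gm
import Pool.Agent.J4H41.VI.Kob

/-!
If the entire curves in a projective variety lie in the closure of the union of the images of the
multiplicative group, then they are controlled by the rational points over number fields.
-/

set_option autoImplicit false
set_option linter.overlappingInstances false

open Filter Topology Metric Set LinearAlgebra.Projectivization

namespace Pool.Agent.J4H28.HY

open Pool.Agent.N154.GG (HolMap kobayashi projDist)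
open Pool.Agent.N154.TB (BrodyHyp CurveIn IsConst)
open Pool.Agent.W602.GT Pool.Agent.Y221.FQ
open Pool.Agent.Q103.AR (Points)

variable {k : Type} [Field k] [NumberField k] (σ : k →+* ℂ) {M : ℕ} {μ : Type}
  {Φ : μ → MvPolynomial (Fin (M + 1)) k}

theorem points_one {L : Type} [Field L] [Algebra k L] :
    Points (fun _ : Unit => (1 : MvPolynomial (Fin (M + 1)) k)) L = ∅ := by
  rw [Set.eq_empty_iff_forall_notMem]
  intro p hp
  have := hp ()
  rw [map_one] at this
  exact one_ne_zero this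

/-- **Rational points and entire curves.** -/
theorem curves_in (hΦ : ∀ e, IsForm (Φ e))
    (h : SpH (fun e => MvPolynomial.map σ (Φ e)) ⊆ SpGm (fun e => MvPolynomial.map σ (Φ e)))
    {κ : Type} {Θ : κ → MvPolynomial (Fin (M + 1)) k} (hΘ : ∀ j, IsForm (Θ j))
    (hfin : ∀ (L : Type) [Field L] [NumberField L] [Algebra k L],
      (Points Φ L \ Points Θ L).Finite)
    {f : ℂ → ℙ ℂ (Fin (M + 1) → ℂ)}
    (hf : CurveIn (Cone fun e => MvPolynomial.map σ (Φ e)) f) (hnc : ¬ IsConst f) (z : ℂ) :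
    (f z).rep ∈ Cone fun j => MvPolynomial.map σ (Θ j) := by
  have hΦ' : ∀ e, IsForm (MvPolynomial.map σ (Φ e)) := fun e => by
    obtain ⟨d, hd⟩ := hΦ e
    exact ⟨d, hd.map σ⟩
  have hΘ' : ∀ e, IsForm (MvPolynomial.map σ (Θ e)) := fun e => by
    obtain ⟨d, hd⟩ := hΘ e
    exact ⟨d, hd.map σ⟩
  obtain ⟨H, hH, hrep⟩ := entire_of hΦ' hf hnc
  refine ⟨(hf.2 z).1, fun j => ?_⟩
  -- the forms vanish on the images of the multiplicative group
  have h1 : ∀ P, GmCurve (fun e => MvPolynomial.map σ (Φ e)) P → ∀ t : ℂ, t ≠ 0 →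
      val (fun i => (P i).eval t) (MvPolynomial.map σ (Θ j)) = 0 := by
    intro P hP t _
    by_contra hcon
    obtain ⟨L, i1, i2, i3, hinf⟩ := gm_infinite σ hΦ hP (hΘ j) hcon
    refine hinf ((hfin L).subset ?_)
    rintro p ⟨hp, hp'⟩
    exact ⟨hp, fun hp'' => hp' (hp'' j)⟩
  have h2 : (f z).rep ∈ SpH (fun e => MvPolynomial.map σ (Φ e)) := by
    refine ⟨hf.2 z, fun G hG hGf => ?_⟩
    obtain ⟨a, ha0, ha⟩ := hrep z
    obtain ⟨d, hd⟩ := hG
    have h3 : (f z).rep = fun i => a * H z i := funext ha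
    rw [h3, val_smul hd, hGf H hH z, mul_zero]
  exact (h h2).2 _ (hΘ' j) h1

/-- **Finiteness of the rational points implies hyperbolicity.** -/
theorem hyperbolic (hΦ : ∀ e, IsForm (Φ e))
    (h : SpH (fun e => MvPolynomial.map σ (Φ e)) ⊆ SpGm (fun e => MvPolynomial.map σ (Φ e)))
    (hfin : ∀ (L : Type) [Field L] [NumberField L] [Algebra k L], (Points Φ L).Finite) :
    BrodyHyp (Cone fun e => MvPolynomial.map σ (Φ e)) ∧
    ∃ c : ℝ, 0 < c ∧ ∀ p q : ℙ ℂ (Fin (M + 1) → ℂ),
      p.rep ∈ Cone (fun e => MvPolynomial.map σ (Φ e)) →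
      q.rep ∈ Cone (fun e => MvPolynomial.map σ (Φ e)) →
      ENNReal.ofReal (c * projDist p q) ≤
        kobayashi (Cone fun e => MvPolynomial.map σ (Φ e)) p q := by
  have hΦ' : ∀ e, IsForm (MvPolynomial.map σ (Φ e)) := fun e => by
    obtain ⟨d, hd⟩ := hΦ e
    exact ⟨d, hd.map σ⟩
  have hB : BrodyHyp (Cone fun e => MvPolynomial.map σ (Φ e)) := by
    intro f hf
    by_contra hnc
    have h1 := curves_in σ hΦ h (κ := Unit) (Θ := fun _ => 1)
      (fun _ => ⟨0, MvPolynomial.isHomogeneous_one _ _⟩)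
      (fun L _ _ _ => (hfin L).subset Set.sdiff_subset) hf hnc 0
    have h2 := h1.2 ()
    rw [map_one] at h2
    unfold val at h2
    rw [map_one] at h2
    exact one_ne_zero h2
  exact ⟨hB, Pool.Agent.J4H41.VI.kob_of_brody hΦ' hB⟩

end Pool.Agent.J4H28.HY
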