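import Pool.Agent.J4H28.HY.Core

/-!
The existence of entire curves in the projective varieties whose special set is swept out by images
of the multiplicative group does not depend on the embedding of the number field.
-/

set_option autoImplicit false
set_option linter.overlappingInstances false

open Filter Topology Metric Set LinearAlgebra.Projectivization

namespace Pool.Agent.J4H28.HY

open Pool.Agent.N154.GG (HolMap kobayashi projDist)
open Pool.Agent.N154.TB (BrodyHyp CurveIn IsConst)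
open Pool.Agent.W602.GT Pool.Agent.Y221.FQ
open Pool.Agent.Q103.AR (Points spread exists_spec)

theorem not_prop {M : ℕ} {ι : Type} {F : ι → MvPolynomial (Fin (M + 1)) ℂ}
    {P : Fin (M + 1) → Polynomial ℂ} (hP : GmCurve F P) :
    ∃ j, P j ≠ 0 ∧ ¬ ∀ i, ∃ c : ℂ, P i = Polynomial.C c * P j := by
  obtain ⟨s, s', hs, hs', hind⟩ := hP.nonconst
  obtain ⟨j, hj⟩ := Function.ne_iff.1 (hP.ne s hs)
  have hPj : P j ≠ 0 := by
    intro h
    apply hj
    change (P j).eval s = 0
    rw [h, Polynomial.eval_zero]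
  refine ⟨j, hPj, fun h1 => ?_⟩
  choose c hc using h1
  rw [LinearIndependent.pair_iff] at hind
  have h3 := hind ((P j).eval s') (-(P j).eval s) (by
    funext i
    simp only [Pi.add_apply, Pi.smul_apply, smul_eq_mul, Pi.zero_apply]
    rw [hc i]
    simp only [Polynomial.eval_mul, Polynomial.eval_C]
    ring)
  apply hj
  have h4 := h3.2
  rw [neg_eq_zero] at h4
  exact h4

/-- proportional polynomials -/
theorem minor_of {K : Type} [Field K] {M : ℕ} {P : Fin (M + 1) → Polynomial K} {j : Fin (M + 1)}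
    (hj : P j ≠ 0) (h : ¬ ∀ i, ∃ c : K, P i = Polynomial.C c * P j) :
    ∃ i a b, (P i).coeff a * (P j).coeff b ≠ (P i).coeff b * (P j).coeff a := by
  by_contra hcon
  push Not at hcon
  apply h
  obtain ⟨b, hb⟩ : ∃ b, (P j).coeff b ≠ 0 := by
    by_contra h1
    push Not at h1
    exact hj (Polynomial.ext fun b => by rw [h1 b, Polynomial.coeff_zero])
  intro i
  refine ⟨(P i).coeff b / (P j).coeff b, Polynomial.ext fun a => ?_⟩
  rw [Polynomial.coeff_C_mul]
  have := hcon i a b
  field_simp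
  exact this

theorem of_minor {K : Type} [Field K] {M : ℕ} {P : Fin (M + 1) → Polynomial K} {i j : Fin (M + 1)}
    {a b : ℕ} (h : (P i).coeff a * (P j).coeff b ≠ (P i).coeff b * (P j).coeff a) (l : Fin (M + 1))
    (hl : ∀ i, ∃ c : K, P i = Polynomial.C c * P l) : False := by
  obtain ⟨c, hc⟩ := hl i
  obtain ⟨c', hc'⟩ := hl j
  apply h
  rw [hc, hc']
  simp only [Polynomial.coeff_C_mul]
  ring

theorem exists_num {k : Type} [Field k] [NumberField k] (σ : k →+* ℂ) {M : ℕ} {ι : Type}
    {F : ι → MvPolynomial (Fin (M + 1)) k} {P : Fin (M + 1) → Polynomial ℂ}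
    (hP : GmCurve (fun e => MvPolynomial.map σ (F e)) P) {G : MvPolynomial (Fin (M + 1)) k}
    {t : ℂ} (hGt : val (fun i => (P i).eval t) (MvPolynomial.map σ G) ≠ 0) :
    ∃ (L : Type) (_ : Field L) (_ : Algebra k L) (_ : FiniteDimensional k L)
      (Q : Fin (M + 1) → Polynomial L), (∀ e, MvPolynomial.aeval Q (F e) = 0) ∧
      MvPolynomial.aeval Q G ≠ 0 ∧ ∃ i j a b,
        (Q i).coeff a * (Q j).coeff b ≠ (Q i).coeff b * (Q j).coeff a := by
  classical
  let _ : Algebra k ℂ := σ.toAlgebra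
  obtain ⟨R, i1, i2, i3, i4, g, hg, -, -, w, -, -, hw⟩ := spread (k := k) (0 : ℂ) 0
    (fun i => (P i, 0))
  obtain ⟨p, hp⟩ : ∃ p : Fin (M + 1) → Polynomial R, ∀ i, P i = Polynomial.mapAlgHom g (p i) :=
    ⟨fun i => (w i).1, fun i => congrArg Prod.fst (hw i)⟩
  have hinj : Function.Injective (Polynomial.mapAlgHom g) := by
    intro x y hxy
    exact Polynomial.map_injective g.toRingHom hg hxy
  have hcomp : ∀ H : MvPolynomial (Fin (M + 1)) k, Polynomial.mapAlgHom g (MvPolynomial.aeval p H) =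
      MvPolynomial.aeval P (MvPolynomial.map (algebraMap k ℂ) H) := by
    intro H
    have h1 : P = fun i => Polynomial.mapAlgHom g (p i) := funext hp
    rw [MvPolynomial.aeval_map_algebraMap, h1]
    exact MvPolynomial.comp_aeval_apply (f := p) (Polynomial.mapAlgHom g) H
  have heval : ∀ (H : MvPolynomial (Fin (M + 1)) ℂ) (s : ℂ),
      (MvPolynomial.aeval P H).eval s = val (fun i => (P i).eval s) H := by
    intro H s
    unfold Pool.Agent.W602.GT.val
    rw [← Polynomial.coe_aeval_eq_eval, ← MvPolynomial.comp_aeval_apply]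
  have hF0 : ∀ e, MvPolynomial.aeval p (F e) = 0 := by
    intro e
    have h1 : MvPolynomial.aeval P (MvPolynomial.map (algebraMap k ℂ) (F e)) = 0 := by
      apply Polynomial.eq_zero_of_infinite_isRoot
      refine Set.Infinite.mono ?_ (Set.finite_singleton (0 : ℂ)).infinite_compl
      intro s hs
      rw [Set.mem_compl_iff, Set.mem_singleton_iff] at hs
      change Polynomial.IsRoot _ s
      rw [Polynomial.IsRoot, heval]
      exact hP.mem s hs e
    apply hinj
    rw [hcomp, h1, map_zero]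
  have hG0 : MvPolynomial.aeval p G ≠ 0 := by
    intro h
    have h1 := hcomp G
    rw [h, map_zero] at h1
    apply hGt
    rw [← heval]
    change Polynomial.eval t (MvPolynomial.aeval P (MvPolynomial.map (algebraMap k ℂ) G)) = 0
    rw [← h1, Polynomial.eval_zero]
  obtain ⟨m, hm⟩ : ∃ m, (MvPolynomial.aeval p G).coeff m ≠ 0 := by
    by_contra h1
    push Not at h1
    exact hG0 (Polynomial.ext fun b => by rw [h1 b, Polynomial.coeff_zero])
  obtain ⟨j, hj, hnp⟩ := not_prop hP
  obtain ⟨i, a, b, hab⟩ := minor_of hj hnp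
  have hmin : (p i).coeff a * (p j).coeff b - (p i).coeff b * (p j).coeff a ≠ 0 := by
    intro h
    apply hab
    have h1 := congrArg g h
    rw [map_zero, map_sub, map_mul, map_mul] at h1
    rw [hp i, hp j]
    change (Polynomial.map g.toRingHom (p i)).coeff a * (Polynomial.map g.toRingHom (p j)).coeff b =
      (Polynomial.map g.toRingHom (p i)).coeff b * (Polynomial.map g.toRingHom (p j)).coeff a
    simp only [Polynomial.coeff_map]
    exact sub_eq_zero.1 h1
  obtain ⟨L, j1, j2, j3, φ, hφ⟩ := exists_spec k R _ (mul_ne_zero hmin hm)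
  rw [map_mul] at hφ
  have hφ1 := left_ne_zero_of_mul hφ
  have hφ2 := right_ne_zero_of_mul hφ
  have hcompL : ∀ H : MvPolynomial (Fin (M + 1)) k,
      MvPolynomial.aeval (fun i => Polynomial.mapAlgHom φ (p i)) H =
      Polynomial.mapAlgHom φ (MvPolynomial.aeval p H) := by
    intro H
    rw [← MvPolynomial.comp_aeval_apply]
  refine ⟨L, j1, j2, j3, fun i => Polynomial.mapAlgHom φ (p i), fun e => ?_, fun h => ?_, i, j, a, b,
    fun h => ?_⟩
  · rw [hcompL, hF0, map_zero]
  · rw [hcompL] at h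
    apply hφ2
    have h1 := congrArg (fun q => Polynomial.coeff q m) h
    change (Polynomial.map φ.toRingHom (MvPolynomial.aeval p G)).coeff m =
      (0 : Polynomial L).coeff m at h1
    rw [Polynomial.coeff_map, Polynomial.coeff_zero] at h1
    exact h1
  · apply hφ1
    change (Polynomial.map φ.toRingHom (p i)).coeff a * (Polynomial.map φ.toRingHom (p j)).coeff b =
      (Polynomial.map φ.toRingHom (p i)).coeff b * (Polynomial.map φ.toRingHom (p j)).coeff a at h
    simp only [Polynomial.coeff_map] at h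
    rw [map_sub, map_mul, map_mul]
    exact sub_eq_zero.2 h

theorem curve_of_num {k : Type} [Field k] [NumberField k] (τ : k →+* ℂ) {M : ℕ} {ι : Type}
    {F : ι → MvPolynomial (Fin (M + 1)) k} (hF : ∀ e, IsForm (F e))
    {G : MvPolynomial (Fin (M + 1)) k} (hG : IsForm G) {L : Type} [Field L] [Algebra k L]
    [FiniteDimensional k L] {Q : Fin (M + 1) → Polynomial L}
    (hQ : ∀ e, MvPolynomial.aeval Q (F e) = 0) (hQG : MvPolynomial.aeval Q G ≠ 0)
    {i j : Fin (M + 1)} {a b : ℕ}
    (hab : (Q i).coeff a * (Q j).coeff b ≠ (Q i).coeff b * (Q j).coeff a) :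
    ∃ f : ℂ → ℙ ℂ (Fin (M + 1) → ℂ), CurveIn (Cone fun e => MvPolynomial.map τ (F e)) f ∧
      ¬ IsConst f ∧ ∃ z, val (f z).rep (MvPolynomial.map τ G) ≠ 0 := by
  classical
  let _ : Algebra k ℂ := τ.toAlgebra
  let τ' : L →ₐ[k] ℂ := IsAlgClosed.lift
  -- the polynomials over the complex numbers
  obtain ⟨q, hq⟩ : ∃ q : Fin (M + 1) → Polynomial ℂ, ∀ i, q i = Polynomial.mapAlgHom τ' (Q i) :=
    ⟨_, fun _ => rfl⟩
  have hcomp : ∀ H : MvPolynomial (Fin (M + 1)) k,
      MvPolynomial.aeval q (MvPolynomial.map (algebraMap k ℂ) H) =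
      Polynomial.mapAlgHom τ' (MvPolynomial.aeval Q H) := by
    intro H
    have h1 : q = fun i => Polynomial.mapAlgHom τ' (Q i) := funext hq
    rw [MvPolynomial.aeval_map_algebraMap, h1]
    exact (MvPolynomial.comp_aeval_apply (f := Q) (Polynomial.mapAlgHom τ') H).symm
  have heval : ∀ (P : Fin (M + 1) → Polynomial ℂ) (H : MvPolynomial (Fin (M + 1)) ℂ) (s : ℂ),
      (MvPolynomial.aeval P H).eval s = val (fun i => (P i).eval s) H := by
    intro P H s
    unfold Pool.Agent.W602.GT.val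
    rw [← Polynomial.coe_aeval_eq_eval, ← MvPolynomial.comp_aeval_apply]
  have hFq : ∀ e, MvPolynomial.aeval q (MvPolynomial.map (algebraMap k ℂ) (F e)) = 0 := fun e => by
    rw [hcomp, hQ, map_zero]
  have hGq : MvPolynomial.aeval q (MvPolynomial.map (algebraMap k ℂ) G) ≠ 0 := by
    rw [hcomp]
    intro h
    apply hQG
    have h1 : Polynomial.map τ'.toRingHom (MvPolynomial.aeval Q G) =
        Polynomial.map τ'.toRingHom 0 := by
      rw [Polynomial.map_zero]
      exact h
    exact Polynomial.map_injective τ'.toRingHom τ'.toRingHom.injective h1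
  have habq : (q i).coeff a * (q j).coeff b ≠ (q i).coeff b * (q j).coeff a := by
    rw [hq, hq]
    change (Polynomial.map τ'.toRingHom (Q i)).coeff a * (Polynomial.map τ'.toRingHom (Q j)).coeff b ≠
      (Polynomial.map τ'.toRingHom (Q i)).coeff b * (Polynomial.map τ'.toRingHom (Q j)).coeff a
    simp only [Polynomial.coeff_map]
    rw [← map_mul, ← map_mul]
    exact fun h => hab (τ'.toRingHom.injective h)
  -- the common divisor
  obtain ⟨d, hd⟩ : ∃ d : Polynomial ℂ, Ideal.span (Set.range q) = Ideal.span {d} :=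
    ⟨_, (Submodule.IsPrincipal.span_singleton_generator _).symm⟩
  have hdq : ∀ i, ∃ u, q i = d * u := by
    intro i
    have h1 : q i ∈ Ideal.span {d} := by
      rw [← hd]
      exact Ideal.subset_span ⟨i, rfl⟩
    exact Ideal.mem_span_singleton.1 h1
  choose u hu using hdq
  have hd0 : d ≠ 0 := by
    rintro rfl
    apply habq
    rw [hu i, hu j]
    simp
  have hone : ∃ r : Fin (M + 1) → Polynomial ℂ, ∑ i, r i * u i = 1 := by
    have h1 : d ∈ Ideal.span (Set.range q) := by
      rw [hd]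
      exact Ideal.mem_span_singleton_self d
    obtain ⟨r, hr⟩ := (Submodule.mem_span_range_iff_exists_fun (Polynomial ℂ)).1 h1
    refine ⟨r, mul_left_cancel₀ hd0 ?_⟩
    rw [Finset.mul_sum, mul_one]
    conv_rhs => rw [← hr]
    refine Finset.sum_congr rfl fun i _ => ?_
    rw [smul_eq_mul, hu i]
    ring
  obtain ⟨r, hr⟩ := hone
  have hne : ∀ z : ℂ, (fun i => (u i).eval z) ≠ 0 := by
    intro z h
    have h1 := congrArg (Polynomial.eval z) hr
    rw [Polynomial.eval_finset_sum, Polynomial.eval_one] at h1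
    have h2 : ∀ i, (u i).eval z = 0 := fun i => congrFun h i
    simp only [Polynomial.eval_mul, h2, mul_zero, Finset.sum_const_zero] at h1
    exact zero_ne_one h1
  have hq' : ∀ z, (fun i => (q i).eval z) = fun i => d.eval z * (u i).eval z := by
    intro z
    funext i
    rw [hu i, Polynomial.eval_mul]
  have hFu : ∀ e z, val (fun i => (u i).eval z) (MvPolynomial.map τ (F e)) = 0 := by
    intro e
    have h1 : MvPolynomial.aeval u (MvPolynomial.map τ (F e)) = 0 := by
      apply Polynomial.eq_zero_of_infinite_isRoot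
      refine Set.Infinite.mono ?_ (Polynomial.finite_setOf_isRoot hd0).infinite_compl
      intro s hs
      change Polynomial.IsRoot _ s
      rw [Polynomial.IsRoot, heval]
      have h2 : d.eval s ≠ 0 := hs
      obtain ⟨D, hD⟩ := hF e
      have h3 := heval q (MvPolynomial.map (algebraMap k ℂ) (F e)) s
      rw [hFq, Polynomial.eval_zero, hq', val_smul (hD.map _)] at h3
      exact (mul_eq_zero.1 h3.symm).resolve_left (pow_ne_zero _ h2)
    intro z
    rw [← heval, h1, Polynomial.eval_zero]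
  obtain ⟨z0, hz0⟩ : ∃ z, val (fun i => (u i).eval z) (MvPolynomial.map τ G) ≠ 0 := by
    by_contra hcon
    push Not at hcon
    apply hGq
    apply Polynomial.funext
    intro z
    obtain ⟨D, hD⟩ := hG
    rw [heval, hq', val_smul (hD.map _), Polynomial.eval_zero]
    have := hcon z
    change val (fun i => (u i).eval z) (MvPolynomial.map (algebraMap k ℂ) G) = 0 at this
    rw [this, mul_zero]
  have hrep : ∀ z, ∃ c : ℂ, c ≠ 0 ∧ ∀ i, (Projectivization.mk ℂ (fun i => (u i).eval z) (hne z)).rep i =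
      c * (u i).eval z := fun z => rep_of rfl
  refine ⟨fun z => Projectivization.mk ℂ (fun i => (u i).eval z) (hne z), ⟨fun z => ?_, fun z => ?_⟩,
    fun hc => ?_, z0, ?_⟩
  · refine ⟨Set.univ, fun z i => (u i).eval z, isOpen_univ, trivial, ?_, fun w _ => ⟨hne w, rfl⟩⟩
    exact differentiableOn_pi.2 fun i => (u i).differentiable.differentiableOn
  · obtain ⟨c, hc0, hc⟩ := hrep z
    refine ⟨Projectivization.rep_nonzero _, fun e => ?_⟩
    obtain ⟨D, hD⟩ := hF e
    rw [funext hc, val_smul (hD.map _), hFu, mul_zero]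
  · -- nonconstant
    obtain ⟨l, hl⟩ := Function.ne_iff.1 (hne 0)
    refine of_minor habq l fun i => ?_
    have h1 : ∀ z, ∃ c : ℂ, ∀ i, c * (u i).eval 0 = (u i).eval z := by
      intro z
      have h2 := hc z 0
      rw [Projectivization.mk_eq_mk_iff'] at h2
      obtain ⟨c, hc⟩ := h2
      exact ⟨c, fun i => congrFun hc i⟩
    have hl' : (u l).eval 0 ≠ 0 := hl
    have h3 : u i = Polynomial.C ((u i).eval 0 / (u l).eval 0) * u l := by
      apply Polynomial.funext
      intro z
      obtain ⟨c, hc⟩ := h1 z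
      rw [Polynomial.eval_mul, Polynomial.eval_C, ← hc i, ← hc l]
      field_simp
    refine ⟨(u i).eval 0 / (u l).eval 0, ?_⟩
    rw [hu i, hu l]
    conv_lhs => rw [h3]
    ring
  · obtain ⟨c, hc0, hc⟩ := hrep z0
    obtain ⟨D, hD⟩ := hG
    change val (Projectivization.mk ℂ (fun i => (u i).eval z0) (hne z0)).rep
      (MvPolynomial.map τ G) ≠ 0
    rw [funext hc, val_smul (hD.map _)]
    exact mul_ne_zero (pow_ne_zero _ hc0) hz0

variable {k : Type} [Field k] [NumberField k] (σ τ : k →+* ℂ) {M : ℕ} {μ : Type}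
  {Φ : μ → MvPolynomial (Fin (M + 1)) k}

/-- **Independence of the embedding.** -/
theorem curves_in_emb (hΦ : ∀ e, IsForm (Φ e))
    (h : SpH (fun e => MvPolynomial.map σ (Φ e)) ⊆ SpGm (fun e => MvPolynomial.map σ (Φ e)))
    {κ : Type} {Θ : κ → MvPolynomial (Fin (M + 1)) k} (hΘ : ∀ j, IsForm (Θ j))
    (hτ : ∀ f : ℂ → ℙ ℂ (Fin (M + 1) → ℂ), CurveIn (Cone fun e => MvPolynomial.map τ (Φ e)) f →
      ¬ IsConst f → ∀ z, (f z).rep ∈ Cone fun j => MvPolynomial.map τ (Θ j))
    {f : ℂ → ℙ ℂ (Fin (M + 1) → ℂ)}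
    (hf : CurveIn (Cone fun e => MvPolynomial.map σ (Φ e)) f) (hnc : ¬ IsConst f) (z : ℂ) :
    (f z).rep ∈ Cone fun j => MvPolynomial.map σ (Θ j) := by
  have hΦ' : ∀ e, IsForm (MvPolynomial.map σ (Φ e)) := fun e => by
    obtain ⟨d, hd⟩ := hΦ e
    exact ⟨d, hd.map σ⟩
  have hΘ' : ∀ e, IsForm (MvPolynomial.map σ (Θ e)) := fun e => by
    obtain ⟨d, hd⟩ := hΘ e
    exact ⟨d, hd.map σ⟩
  obtain ⟨H, hH, hrep⟩ := entire_of hΦ' hf hnc
  refine ⟨(hf.2 z).1, fun j => ?_⟩
  have h1 : ∀ P, GmCurve (fun e => MvPolynomial.map σ (Φ e)) P → ∀ t : ℂ, t ≠ 0 →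
      val (fun i => (P i).eval t) (MvPolynomial.map σ (Θ j)) = 0 := by
    intro P hP t _
    by_contra hcon
    obtain ⟨L, i1, i2, i3, Q, hQ, hQG, i, l, a, b, hab⟩ := exists_num σ hP hcon
    obtain ⟨g, hg, hgn, w, hw⟩ := curve_of_num τ hΦ (hΘ j) hQ hQG hab
    exact hw ((hτ g hg hgn w).2 j)
  have h2 : (f z).rep ∈ SpH (fun e => MvPolynomial.map σ (Φ e)) := by
    refine ⟨hf.2 z, fun G hG hGf => ?_⟩
    obtain ⟨a, ha0, ha⟩ := hrep z
    obtain ⟨d, hd⟩ := hG
    have h3 : (f z).rep = fun i => a * H z i := funext ha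
    rw [h3, val_smul hd, hGf H hH z, mul_zero]
  exact (h h2).2 _ (hΘ' j) h1

/-- **Hyperbolicity for one embedding implies hyperbolicity for the other ones.** -/
theorem hyp_emb (hΦ : ∀ e, IsForm (Φ e))
    (h : SpH (fun e => MvPolynomial.map σ (Φ e)) ⊆ SpGm (fun e => MvPolynomial.map σ (Φ e)))
    (hτ : BrodyHyp (Cone fun e => MvPolynomial.map τ (Φ e))) :
    BrodyHyp (Cone fun e => MvPolynomial.map σ (Φ e)) ∧
    ∃ c : ℝ, 0 < c ∧ ∀ p q : ℙ ℂ (Fin (M + 1) → ℂ),
      p.rep ∈ Cone (fun e => MvPolynomial.map σ (Φ e)) →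
      q.rep ∈ Cone (fun e => MvPolynomial.map σ (Φ e)) →
      ENNReal.ofReal (c * projDist p q) ≤
        kobayashi (Cone fun e => MvPolynomial.map σ (Φ e)) p q := by
  have hΦ' : ∀ e, IsForm (MvPolynomial.map σ (Φ e)) := fun e => by
    obtain ⟨d, hd⟩ := hΦ e
    exact ⟨d, hd.map σ⟩
  have hB : BrodyHyp (Cone fun e => MvPolynomial.map σ (Φ e)) := by
    intro f hf
    by_contra hnc
    have h1 := curves_in_emb σ τ hΦ h (κ := Unit) (Θ := fun _ => 1)
      (fun _ => ⟨0, MvPolynomial.isHomogeneous_one _ _⟩)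
      (fun g hg hgn _ => absurd (hτ g hg) hgn) hf hnc 0
    have h2 := h1.2 ()
    rw [map_one] at h2
    unfold val at h2
    rw [map_one] at h2
    exact one_ne_zero h2
  exact ⟨hB, Pool.Agent.J4H41.VI.kob_of_brody hΦ' hB⟩

end Pool.Agent.J4H28.HY
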