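import Pool.Agent.Y221.AB.Wei
import Pool.Agent.Y221.FQ.Defs
import Pool.Agent.N154.TB.Defs
import Pool.Agent.W602.GT.Gm

/-!
Holomorphic maps from the complex plane to projective space have entire homogeneous coordinates.
-/

set_option autoImplicit false

open Filter Topology Metric Set LinearAlgebra.Projectivization

namespace Pool.Agent.J4H28.HY

open Pool.Agent.N154.GG (HolMap)
open Pool.Agent.N154.TB (BrodyHyp CurveIn IsConst)
open Pool.Agent.W602.GT Pool.Agent.Y221.FQ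

variable {n : ℕ}

theorem rep_of {p : ℙ ℂ (Fin (n + 1) → ℂ)} {v : Fin (n + 1) → ℂ} {h : v ≠ 0}
    (hp : p = Projectivization.mk ℂ v h) : ∃ a : ℂ, a ≠ 0 ∧ ∀ i, p.rep i = a * v i := by
  obtain ⟨a, ha⟩ := Projectivization.exists_smul_eq_mk_rep ℂ v h
  refine ⟨a, a.ne_zero, fun i => ?_⟩
  rw [hp, ← ha]
  rfl

theorem lift {f : ℂ → ℙ ℂ (Fin (n + 1) → ℂ)} (hf : HolMap f) :
    ∃ H : ℂ → Fin (n + 1) → ℂ, (∀ i, Differentiable ℂ fun z => H z i) ∧
      ∀ z, ∃ h : H z ≠ 0, f z = Projectivization.mk ℂ (H z) h := by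
  classical
  choose V g hV hz hd hm using hf
  have hga : ∀ z i, AnalyticAt ℂ (fun w => g z w i) z := fun z i =>
    (differentiableOn_pi.1 (hd z) i).analyticAt ((hV z).mem_nhds (hz z))
  have hrep : ∀ z, ∀ w ∈ V z, ∃ a : ℂ, a ≠ 0 ∧ ∀ i, (f w).rep i = a * g z w i := by
    intro z w hw
    obtain ⟨h, hh⟩ := hm z w hw
    exact rep_of hh
  -- a coordinate which is not identically zero
  obtain ⟨l, hl⟩ : ∃ l, (f 0).rep l ≠ 0 := Function.ne_iff.1 (f 0).rep_nonzero
  have hiso' : ∀ z, (¬ ∀ᶠ w in 𝓝 z, (f w).rep l = 0) → ∀ᶠ w in 𝓝[≠] z, g z w l ≠ 0 := by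
    intro z hz1
    refine ((hga z l).eventually_eq_zero_or_eventually_ne_zero).resolve_left fun h2 => hz1 ?_
    filter_upwards [h2, (hV z).mem_nhds (hz z)] with w h3 h4
    obtain ⟨a, -, ha⟩ := hrep z w h4
    rw [ha, h3, mul_zero]
  have hno : ∀ z, ¬ ∀ᶠ w in 𝓝 z, (f w).rep l = 0 := by
    have hcl : IsClopen {z : ℂ | ∀ᶠ w in 𝓝 z, (f w).rep l = 0} := by
      constructor
      · rw [← isOpen_compl_iff, isOpen_iff_mem_nhds]
        intro z hz1
        have h2 := hiso' z hz1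
        rw [eventually_nhdsWithin_iff] at h2
        filter_upwards [h2, (hV z).mem_nhds (hz z)] with w h4 h5 h6
        by_cases hwz : w = z
        · subst hwz
          exact hz1 h6
        · obtain ⟨a, ha0, ha⟩ := hrep z w h5
          have h7 := h6.self_of_nhds
          rw [ha] at h7
          exact mul_ne_zero ha0 (h4 hwz) h7
      · exact isOpen_iff_mem_nhds.2 fun z hz1 => eventually_eventually_nhds.2 hz1
    intro z hz1
    have h1 := hcl.eq_univ ⟨z, hz1⟩
    have h2 : (0 : ℂ) ∈ {z : ℂ | ∀ᶠ w in 𝓝 z, (f w).rep l = 0} := by rw [h1]; trivial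
    exact hl h2.self_of_nhds
  have hiso : ∀ z, ∀ᶠ w in 𝓝[≠] z, g z w l ≠ 0 := fun z => hiso' z (hno z)
  have hord : ∀ z, analyticOrderAt (fun w => g z w l) z ≠ ⊤ := by
    intro z h
    rw [analyticOrderAt_eq_top] at h
    apply hno z
    filter_upwards [h, (hV z).mem_nhds (hz z)] with w h3 h4
    obtain ⟨a, -, ha⟩ := hrep z w h4
    rw [ha, h3, mul_zero]
  obtain ⟨m, hmm⟩ : ∃ m : ℂ → ℕ, ∀ z, analyticOrderAt (fun w => g z w l) z = m z :=
    ⟨fun z => (analyticOrderAt (fun w => g z w l) z).toNat, fun z => (ENat.coe_toNat (hord z)).symm⟩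
  have hfin : ∀ R : ℝ, ({a | m a ≠ 0} ∩ closedBall 0 R).Finite := by
    intro R
    by_contra hcon
    obtain ⟨z, -, hz1⟩ := Set.Infinite.exists_accPt_of_subset_isCompact hcon
      (isCompact_closedBall (0 : ℂ) R) inter_subset_right
    rw [accPt_iff_frequently_nhdsNE] at hz1
    apply hz1
    filter_upwards [hiso z, mem_nhdsWithin_of_mem_nhds ((hV z).mem_nhds (hz z))] with w h1 h2 h3
    have h4 : analyticOrderAt (fun u => g w u l) w ≠ 0 := by
      rw [hmm]
      exact_mod_cast h3.1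
    have h5 : g w w l = 0 := (hga w l).analyticOrderAt_ne_zero.1 h4
    obtain ⟨a, ha0, ha⟩ := hrep z w h2
    obtain ⟨b, hb0, hb⟩ := hrep w w (hz w)
    have h6 := ha l
    rw [hb, h5, mul_zero] at h6
    exact mul_ne_zero ha0 h1 h6.symm
  obtain ⟨q, hq, hqm⟩ := Pool.Agent.Y221.AB.weier m hfin
  have hc : ∀ z, ∃ c : ℂ → ℂ, AnalyticAt ℂ c z ∧ c z ≠ 0 ∧ ∀ᶠ w in 𝓝 z, q w = c w * g z w l := by
    intro z
    obtain ⟨u, hu, hu0, hu1⟩ := ((hq.analyticAt z).analyticOrderAt_eq_natCast).1 (hqm z)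
    obtain ⟨v, hv, hv0, hv1⟩ := ((hga z l).analyticOrderAt_eq_natCast).1 (hmm z)
    refine ⟨fun w => u w / v w, hu.div hv hv0, div_ne_zero hu0 hv0, ?_⟩
    filter_upwards [hu1, hv1, hv.continuousAt.eventually_ne hv0] with w h1 h2 h3
    rw [h1, h2, smul_eq_mul, smul_eq_mul]
    field_simp
  choose c hca hc0 hc1 using hc
  have key : ∀ z, ∀ᶠ w in 𝓝 z, ∀ i, limUnder (𝓝[≠] w)
      (fun u => q u * ((f u).rep i / (f u).rep l)) = c z w * g z w i := by
    intro z
    have h0 := hiso z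
    rw [eventually_nhdsWithin_iff] at h0
    have h1 : ∀ᶠ w in 𝓝 z, w ∈ V z ∧ q w = c z w * g z w l ∧ ContinuousAt (c z) w ∧
        (w ≠ z → g z w l ≠ 0) := by
      filter_upwards [(hV z).mem_nhds (hz z), hc1 z, (hca z).eventually_analyticAt, h0] with
        w h2 h3 h4 h5
      exact ⟨h2, h3, h4.continuousAt, h5⟩
    filter_upwards [eventually_eventually_nhds.2 h1] with w hw i
    obtain ⟨hwV, -, hwc, -⟩ := hw.self_of_nhds
    have hcont : ContinuousAt (fun u => c z u * g z u i) w :=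
      hwc.mul ((differentiableOn_pi.1 (hd z) i).differentiableAt ((hV z).mem_nhds hwV)).continuousAt
    refine Tendsto.limUnder_eq ?_
    refine (hcont.tendsto.mono_left nhdsWithin_le_nhds).congr' ?_
    have hne : ∀ᶠ u in 𝓝[≠] w, u ≠ z := by
      by_cases hwz : w = z
      · subst hwz
        exact self_mem_nhdsWithin
      · exact mem_nhdsWithin_of_mem_nhds (isOpen_ne.mem_nhds hwz)
    filter_upwards [hne, hw.filter_mono nhdsWithin_le_nhds] with u h2 h3
    obtain ⟨h4, h5, -, h6⟩ := h3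
    obtain ⟨a, ha0, ha⟩ := hrep z u h4
    have h7 := h6 h2
    rw [h5, ha, ha]
    field_simp
  refine ⟨fun z i => limUnder (𝓝[≠] z) (fun u => q u * ((f u).rep i / (f u).rep l)), ?_, ?_⟩
  · intro i z
    have h1 : AnalyticAt ℂ (fun w => c z w * g z w i) z := (hca z).mul (hga z i)
    refine (h1.congr ?_).differentiableAt
    filter_upwards [key z] with w hw
    exact (hw i).symm
  · intro z
    obtain ⟨h1, h2⟩ := hm z z (hz z)
    have h3 : (fun i => limUnder (𝓝[≠] z) (fun u => q u * ((f u).rep i / (f u).rep l))) =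
        c z z • g z z := by
      funext i
      exact (key z).self_of_nhds i
    refine ⟨?_, ?_⟩
    · exact h3.trans_ne (smul_ne_zero (hc0 z) h1)
    · rw [h2, Projectivization.mk_eq_mk_iff']
      refine ⟨(c z z)⁻¹, ?_⟩
      refine (congrArg (fun v => (c z z)⁻¹ • v) h3).trans ?_
      rw [smul_smul, inv_mul_cancel₀ (hc0 z), one_smul]

variable {ι : Type}

/-- the entire homogeneous coordinates of a nonconstant holomorphic map to a projective variety -/
theorem entire_of {F : ι → MvPolynomial (Fin (n + 1)) ℂ} (hF : ∀ e, IsForm (F e))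
    {f : ℂ → ℙ ℂ (Fin (n + 1) → ℂ)} (hf : CurveIn (Cone F) f) (hnc : ¬ IsConst f) :
    ∃ H, Entire F H ∧ ∀ z, ∃ a : ℂ, a ≠ 0 ∧ ∀ i, (f z).rep i = a * H z i := by
  obtain ⟨H, h1, h2⟩ := lift hf.1
  have h3 : ∀ z, ∃ a : ℂ, a ≠ 0 ∧ ∀ i, (f z).rep i = a * H z i := by
    intro z
    obtain ⟨h, hh⟩ := h2 z
    exact rep_of hh
  refine ⟨H, ⟨h1, fun z => ⟨(h2 z).1, fun e => ?_⟩, ?_⟩, h3⟩
  · obtain ⟨a, ha0, ha⟩ := h3 z
    obtain ⟨d, hd⟩ := hF e
    have h4 := (hf.2 z).2 e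
    have h5 : (f z).rep = fun i => a * H z i := funext ha
    rw [h5, val_smul hd] at h4
    exact (mul_eq_zero.1 h4).resolve_left (pow_ne_zero _ ha0)
  · unfold IsConst at hnc
    push Not at hnc
    obtain ⟨z, w, hzw⟩ := hnc
    refine ⟨z, w, ?_⟩
    rw [LinearIndependent.pair_iff]
    intro s t hst
    obtain ⟨hz0, hz1⟩ := h2 z
    obtain ⟨hw0, hw1⟩ := h2 w
    by_contra hcon
    apply hzw
    rw [hz1, hw1, Projectivization.mk_eq_mk_iff']
    by_cases hs : s = 0
    · subst hs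
      rw [zero_smul, zero_add] at hst
      have ht : t = 0 := (smul_eq_zero.1 hst).resolve_right hw0
      exact absurd ⟨rfl, ht⟩ hcon
    · refine ⟨-t / s, ?_⟩
      have h6 : s • H z = -(t • H w) := eq_neg_of_add_eq_zero_left hst
      rw [div_eq_inv_mul, mul_smul, neg_smul, ← h6, smul_smul, inv_mul_cancel₀ hs, one_smul]

end Pool.Agent.J4H28.HY
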