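import Pool.Agent.J4H28.HY.Emb
import Pool.Agent.R869.SDir

/-!
If each entire curve in a projective variety is moved by a one-parameter group of diagonal matrices,
then the special set is swept out by images of the multiplicative group.
-/

set_option autoImplicit false
set_option linter.overlappingInstances false

open Filter Topology Metric Set

namespace Pool.Agent.J4H28.HY

open Pool.Agent.W602.GT Pool.Agent.Y221.FQ LinearAlgebra.Projectivization
open Pool.Agent.R869.Wd (OrbitIn)
open Pool.Agent.N154.GG (HolMap)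
open Pool.Agent.N154.TB (BrodyHyp CurveIn IsConst)
open Pool.Agent.H159R3.GGLLog (EntireCurve Pts)

variable {n : ℕ} {ι : Type} {F : ι → MvPolynomial (Fin (n + 1)) ℂ}

/-- orbits of one-parameter groups -/
theorem gm_of_orbit (hF : ∀ e, IsForm (F e)) {x : Fin (n + 1) → ℂ} {b : Fin (n + 1) → ℤ}
    (hx : OrbitIn F b x) {j l : Fin (n + 1)} (hbjl : b j ≠ b l) (hj : x j ≠ 0) (hl : x l ≠ 0) :
    ∃ P, GmCurve F P ∧ (fun i => (P i).eval 1) = x := by
  classical
  obtain ⟨c, hc⟩ : ∃ c : ℕ, ∀ i, 0 ≤ b i + c := by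
    refine ⟨∑ i, (b i).natAbs, fun i => ?_⟩
    have h1 : (b i).natAbs ≤ ∑ i, (b i).natAbs :=
      Finset.single_le_sum (f := fun i => (b i).natAbs) (fun _ _ => Nat.zero_le _) (Finset.mem_univ i)
    omega
  obtain ⟨e, he⟩ : ∃ e : Fin (n + 1) → ℕ, ∀ i, (e i : ℤ) = b i + c :=
    ⟨fun i => (b i + c).toNat, fun i => Int.toNat_of_nonneg (hc i)⟩
  have hev : ∀ (t : ℂ) i, (Polynomial.C (x i) * Polynomial.X ^ e i).eval t = x i * t ^ e i := by
    intro t i
    simp
  have hpow : ∀ (t : ℂ), t ≠ 0 → ∀ i, x i * t ^ e i = t ^ c * (t ^ b i * x i) := by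
    intro t ht i
    have h1 : (t : ℂ) ^ e i = t ^ c * t ^ b i := by
      rw [← zpow_natCast, he i, zpow_add₀ ht, zpow_natCast]
      ring
    rw [h1]
    ring
  refine ⟨fun i => Polynomial.C (x i) * Polynomial.X ^ e i, ⟨?_, ?_, ?_⟩, ?_⟩
  · intro t ht h0
    have h1 := congrFun h0 j
    simp only [hev, Pi.zero_apply] at h1
    exact (mul_ne_zero hj (pow_ne_zero _ ht)) h1
  · intro t ht q
    obtain ⟨D, hD⟩ := hF q
    have h1 : (fun i => (Polynomial.C (x i) * Polynomial.X ^ e i).eval t) =
        fun i => t ^ c * (t ^ b i * x i) := funext fun i => (hev t i).trans (hpow t ht i)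
    rw [h1, val_smul hD]
    have h2 : val (fun i => t ^ b i * x i) (F q) = 0 := by
      unfold val
      rw [MvPolynomial.aeval_eq_eval]
      exact hx t ht q
    rw [h2, mul_zero]
  · refine ⟨1, 2, one_ne_zero, two_ne_zero, ?_⟩
    rw [LinearIndependent.pair_iff]
    intro s t hst
    have hjl : e j ≠ e l := by
      intro h
      have h1 : (e j : ℤ) = e l := by exact_mod_cast h
      rw [he, he] at h1
      omega
    have h1 := congrFun hst j
    have h2 := congrFun hst l
    simp only [Pi.add_apply, Pi.smul_apply, smul_eq_mul, Pi.zero_apply, hev, one_pow, mul_one] at h1 h2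
    have h3 : s + t * 2 ^ e j = 0 := by
      have : x j * (s + t * 2 ^ e j) = 0 := by linear_combination h1
      exact (mul_eq_zero.1 this).resolve_left hj
    have h4 : s + t * 2 ^ e l = 0 := by
      have : x l * (s + t * 2 ^ e l) = 0 := by linear_combination h2
      exact (mul_eq_zero.1 this).resolve_left hl
    have h5 : t * ((2 : ℂ) ^ e j - 2 ^ e l) = 0 := by linear_combination h3 - h4
    have h6 : ((2 : ℂ) ^ e j - 2 ^ e l) ≠ 0 := by
      intro h
      apply hjl
      have h7 : (2 : ℂ) ^ e j = 2 ^ e l := sub_eq_zero.1 h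
      have h8 : (2 : ℕ) ^ e j = 2 ^ e l := by exact_mod_cast h7
      exact Nat.pow_right_injective le_rfl h8
    have h7 : t = 0 := (mul_eq_zero.1 h5).resolve_right h6
    subst h7
    rw [zero_mul, add_zero] at h3
    exact ⟨h3, rfl⟩
  · funext i
    rw [hev, one_pow, mul_one]

/-- entire functions: common nonzeros -/
theorem common_nz {f g : ℂ → ℂ} (hf : Differentiable ℂ f) (hg : Differentiable ℂ g) {z w : ℂ}
    (hz : f z ≠ 0) (hw : g w ≠ 0) : ∃ u, f u * g u ≠ 0 := by
  by_contra hcon
  push Not at hcon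
  have hfa : AnalyticOnNhd ℂ f Set.univ := fun x _ => hf.analyticAt x
  have hga : AnalyticOnNhd ℂ g Set.univ := fun x _ => hg.analyticAt x
  rcases hfa.eq_zero_or_eq_zero_of_mul_eq_zero hga (by
    intro x _
    exact hcon x) isPreconnected_univ with h | h
  · exact hz (h z trivial)
  · exact hw (h w trivial)

/-- **Special sets swept by one-parameter groups.** -/
theorem spH_sub_of_orbits (hF : ∀ e, IsForm (F e))
    (h : ∀ f, Entire F f → ∃ b : Fin (n + 1) → ℤ,
      (∃ j l, b j ≠ b l ∧ (∃ z, f z j ≠ 0) ∧ ∃ z, f z l ≠ 0) ∧ ∀ z, OrbitIn F b (f z)) :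
    SpH F ⊆ SpGm F := by
  rintro x ⟨hx, hxG⟩
  refine ⟨hx, fun G hG hGm => hxG G hG fun f hf t => ?_⟩
  by_contra hcon
  obtain ⟨b, ⟨j, l, hbjl, ⟨zj, hzj⟩, zl, hzl⟩, ho⟩ := h f hf
  have hGd : Differentiable ℂ fun z => val (f z) G := by
    have h1 : (fun z => val (f z) G) = fun z => MvPolynomial.eval (f z) G := by
      funext z
      unfold val
      rw [MvPolynomial.aeval_eq_eval]
    rw [h1]
    have h2 : ∀ H : MvPolynomial (Fin (n + 1)) ℂ, Differentiable ℂ fun z => MvPolynomial.eval (f z) H := by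
      intro H
      induction H using MvPolynomial.induction_on with
      | C a => simp
      | add p q hp hq =>
        simp only [map_add]
        exact hp.add hq
      | mul_X p i hp =>
        simp only [map_mul, MvPolynomial.eval_X]
        exact hp.mul (hf.hol i)
    exact h2 G
  obtain ⟨u, hu⟩ := common_nz (hf.hol j) (hf.hol l) hzj hzl
  obtain ⟨v, hv⟩ := common_nz ((hf.hol j).mul (hf.hol l)) hGd hu hcon
  have h1 : val (f v) G ≠ 0 := right_ne_zero_of_mul hv
  have h2 := left_ne_zero_of_mul hv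
  obtain ⟨P, hP, hP1⟩ := gm_of_orbit hF (ho v) hbjl (left_ne_zero_of_mul h2) (right_ne_zero_of_mul h2)
  apply h1
  rw [← hP1]
  exact hGm P hP 1 one_ne_zero

theorem entireCurve_iff {f : ℂ → Fin (n + 1) → ℂ} : EntireCurve ∅ F f ↔ Entire F f := by
  have hp : ∀ x, x ∈ Pts (∅ : Set (Fin (n + 1))) F ↔ x ∈ Cone F := by
    intro x
    constructor
    · rintro ⟨h0, -, h⟩
      refine ⟨h0, fun e => ?_⟩
      unfold val
      rw [MvPolynomial.aeval_eq_eval]
      exact h e
    · rintro ⟨h0, h⟩
      refine ⟨h0, fun j hj => absurd hj (Set.notMem_empty j), fun e => ?_⟩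
      have := h e
      unfold val at this
      rw [MvPolynomial.aeval_eq_eval] at this
      exact this
  constructor
  · rintro ⟨h1, h2, z, w, h3⟩
    refine ⟨fun i => differentiable_pi.1 h1 i, fun t => (hp _).1 (h2 t), z, w, ?_⟩
    rw [LinearIndependent.pair_iff]
    intro s t hst
    have hs : s = 0 := by
      by_contra hs
      apply h3 (-(t / s))
      have h4 : f z = s⁻¹ • (s • f z) := by rw [smul_smul, inv_mul_cancel₀ hs, one_smul]
      rw [h4, eq_neg_of_add_eq_zero_left hst, smul_neg, smul_smul, neg_smul]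
      congr 2
      ring
    subst hs
    rw [zero_smul, zero_add, smul_eq_zero] at hst
    exact ⟨rfl, hst.resolve_right (h2 w).1⟩
  · intro h
    obtain ⟨z, w, h3⟩ := h.nonconst
    refine ⟨differentiable_pi.2 h.hol, fun t => (hp _).2 (h.mem t), z, w, fun c hc => ?_⟩
    rw [LinearIndependent.pair_iff] at h3
    have := h3 1 (-c) (by rw [one_smul, neg_smul, ← hc, add_neg_cancel])
    exact one_ne_zero this.1

/-- entire curves, with and without homogeneous coordinates -/
theorem brody_iff_entire (hF : ∀ e, IsForm (F e)) : BrodyHyp (Cone F) ↔ ∀ f, ¬ Entire F f := by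
  constructor
  · intro h f hf
    have hne : ∀ z, f z ≠ 0 := fun z => (hf.mem z).1
    have hc := h (fun z => Projectivization.mk ℂ (f z) (hne z)) (by
      refine ⟨fun z => ⟨Set.univ, f, isOpen_univ, trivial,
        (differentiable_pi.2 hf.hol).differentiableOn, fun w _ => ⟨hne w, rfl⟩⟩, fun z => ?_⟩
      obtain ⟨c, hc0, hc⟩ := rep_of (v := f z) (h := hne z) rfl
      refine ⟨Projectivization.rep_nonzero _, fun e => ?_⟩
      obtain ⟨D, hD⟩ := hF e
      rw [funext hc, val_smul hD]
      have := (hf.mem z).2 e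
      rw [this, mul_zero])
    obtain ⟨t, t', h3⟩ := hf.nonconst
    have h4 := hc t t'
    rw [Projectivization.mk_eq_mk_iff'] at h4
    obtain ⟨c, hc⟩ := h4
    rw [LinearIndependent.pair_iff] at h3
    have := h3 1 (-c) (by rw [one_smul, neg_smul, hc, add_neg_cancel])
    exact one_ne_zero this.1
  · intro h f hf
    by_contra hnc
    obtain ⟨H, hH, -⟩ := entire_of hF hf hnc
    exact h H hH

end Pool.Agent.J4H28.HY
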