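import Pool.Agent.J4H28.HY.Emb
import Pool.Agent.N115.JU.Img

/-!
# Rational points and hyperbolicity for the finite images of varieties of vectors whose powers are the values of a polynomial

`k` is a number field with an embedding `σ : k → ℂ`, and `X = {Φ = 0}` is a projective variety over `k`
(a closed subset of `ℙ ^ M`, given by forms over `k`).

Let `a 0, ..., a N` be distinct complex numbers and `m ≥ 2`. `PowVal a n m` is the set of the vectors
`x` such that `x i ^ m = H (a i)` for all `i`, for a polynomial `H` of degree at most `n`: a smooth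
complete intersection of dimension `n` in `ℙ ^ N` (for `m = n = 2` the surfaces of Büchi). Let
`V = {F = 0}` be a closed subset of it such that the polynomials `H` of the points of `V` are not
divisible by the `m`-th power of a polynomial of degree at least two (`AllSimple a n m F`; this always
holds for `n < 2 m`). We suppose that the complex variety `X_σ` is the image of `V` under a morphism `G`
(given by forms of equal degree) with fibres of at most `r` points, where
`4 n + (n + 2 r - 1) ^ 2 < 2 (N + 1)` and `(r (r - 1) + 4) r n < N + 1`. Nothing is assumed on the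
singularities and the branch locus, and `V` and `G` need not be defined over a number field. For
instance `X` can be a quotient of `V` by a finite group with at most `r` elements.

Theorem.
(1) If `Z = {Θ = 0}` is a closed subset, over `k`, such that `X(L) ∖ Z(L)` is finite for every
    finite extension `L` of `k`, then all nonconstant holomorphic maps from the complex plane to `X_σ`
    have their image in `Z_σ`.
(2) If `X(L)` is finite for every finite extension `L` of `k`, then `X_σ` is Kobayashi hyperbolic: this is
    one of the two directions of the conjecture of Lang for `X`.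
(3) If `X_τ` is hyperbolic for one embedding `τ : k → ℂ`, then `X_σ` is hyperbolic (which the conjecture
    implies). Here only `X_σ` is supposed to be an image of a `V`.

Proof. By the starting library (`special_imL`) the entire curves in `X_σ` are in the closure `S` of the
union of the images of the nonconstant morphisms from the multiplicative group to `X_σ`. The rest of the
proof is as for `NestedPowerImages` (`Pool/Agent/J4H28/HY`).
-/

set_option autoImplicit false

namespace Pool.Agent.J4H28.HY.PolyVal

open LinearAlgebra.Projectivization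
open Pool.Agent.N154.GG (kobayashi projDist)
open Pool.Agent.N154.TB (BrodyHyp CurveIn IsConst)
open Pool.Agent.W602.GT (Cone IsForm)
open Pool.Agent.Y221.FQ (Mor Onto FibresLe)
open Pool.Agent.Y190.BV (PowVal)
open Pool.Agent.Y190.PH (AllSimple)
open Pool.Agent.Q103.AR (Points)

/-- The complex projective variety with the cone `S` is hyperbolic: all holomorphic maps from the
complex plane to it are constant, and the Kobayashi pseudodistance is a distance; it is at least a
multiple of the distance of the projective space. -/
def Hyperbolic {M : ℕ} (S : Set (Fin (M + 1) → ℂ)) : Prop :=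
  BrodyHyp S ∧ ∃ c : ℝ, 0 < c ∧ ∀ p q : ℙ ℂ (Fin (M + 1) → ℂ), p.rep ∈ S → q.rep ∈ S →
    ENNReal.ofReal (c * projDist p q) ≤ kobayashi S p q

theorem main {k : Type} [Field k] [NumberField k] (σ : k →+* ℂ) {N M n m r : ℕ} {ι μ : Type}
    (hm : 2 ≤ m) (hr : 1 ≤ r) (hN1 : 4 * n + (n + 2 * r - 1) ^ 2 < 2 * (N + 1))
    (hN2 : (r * (r - 1) + 4) * (r * n) < N + 1) {a : Fin (N + 1) → ℂ} (ha : Function.Injective a)
    -- `V = {F = 0}` is a closed subset of `PowVal a n m`
    {F : ι → MvPolynomial (Fin (N + 1)) ℂ} (hF : ∀ e, IsForm (F e))
    (hS : AllSimple a n m F ∨ (n < 2 * m ∧ Cone F ⊆ PowVal a n m))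
    -- `X = {Φ = 0}` is a projective variety over the number field `k`
    {Φ : μ → MvPolynomial (Fin (M + 1)) k} (hΦ : ∀ e, IsForm (Φ e))
    -- `G` is a surjective morphism from `V` to `X_σ` with fibres of at most `r` points
    {G : Fin (M + 1) → MvPolynomial (Fin (N + 1)) ℂ}
    (hG : Mor F (fun e => MvPolynomial.map σ (Φ e)) G)
    (hon : Onto F (fun e => MvPolynomial.map σ (Φ e)) G) (hfib : FibresLe F G r) :
    -- (1) closed subsets `Z = {Θ = 0}` which contain almost all rational points
    (∀ (κ : Type) (Θ : κ → MvPolynomial (Fin (M + 1)) k), (∀ j, IsForm (Θ j)) →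
      (∀ (L : Type) [Field L] [NumberField L] [Algebra k L], (Points Φ L \ Points Θ L).Finite) →
      ∀ f : ℂ → ℙ ℂ (Fin (M + 1) → ℂ), CurveIn (Cone fun e => MvPolynomial.map σ (Φ e)) f →
        ¬ IsConst f → ∀ z, (f z).rep ∈ Cone fun j => MvPolynomial.map σ (Θ j)) ∧
    -- (2) the direction of the conjecture of Lang
    ((∀ (L : Type) [Field L] [NumberField L] [Algebra k L], (Points Φ L).Finite) →
      Hyperbolic (Cone fun e => MvPolynomial.map σ (Φ e))) ∧
    -- (3) other embeddings
    ∀ τ : k →+* ℂ, BrodyHyp (Cone fun e => MvPolynomial.map τ (Φ e)) →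
      Hyperbolic (Cone fun e => MvPolynomial.map σ (Φ e)) := by
  have hΦ' : ∀ e, IsForm (MvPolynomial.map σ (Φ e)) := fun e => by
    obtain ⟨d, hd⟩ := hΦ e
    exact ⟨d, hd.map σ⟩
  have hS' : AllSimple a n m F := by
    rcases hS with h | ⟨h1, h2⟩
    · exact h
    · exact Pool.Agent.Y460.KB.allSimple_of_lt h1 h2
  obtain ⟨-, -, h3, h4⟩ := Pool.Agent.N115.JU.special_imL hm hr ⟨hN1, hN2⟩ ha hF hS' hΦ' hG hon hfib
  have h := (h3.trans h4.symm).subset
  exact ⟨fun κ Θ hΘ hfin f hf hnc z => Pool.Agent.J4H28.HY.curves_in σ hΦ h hΘ hfin hf hnc z,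
    fun hfin => Pool.Agent.J4H28.HY.hyperbolic σ hΦ h hfin,
    fun τ hτ => Pool.Agent.J4H28.HY.hyp_emb σ τ hΦ h hτ⟩

end Pool.Agent.J4H28.HY.PolyVal
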